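import Pool.Agent.H741.EL.Fin

/-!
# Shortest area-bisecting closed curves in an ellipse through a boundary point

For the closed region `Ell a b` bounded by the ellipse `bdE a b` with semi-axes `a ≥ b > 0` and a point
`p` of the ellipse, `Adm a b p γ` says that `γ` is an admissible closed curve through `p`: a rectifiable
simple closed curve in the region, through `p`, such that the interior of the region minus the curve is
the union of two disjoint open simply connected sets (its two components) of area `π a b / 2` each;
`Shortest a b p γ` says that it has least length among the admissible closed curves through `p`.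
-/

set_option autoImplicit false

open MeasureTheory Metric Set

namespace Pool.Agent.Results.MP_7791e4_an.ShortestClosedCurves

open Pool.Agent.H741.EL

/-- For every point `p` of the ellipse admissible closed curves through `p` exist; a shortest one exists
if and only if `2 b (a² - b²) x₀² < a⁴ (2 b - a)`, or `a³ = 2 b³` and `y₀ = 0` (where `p = (x₀, y₀)`), and
then it is the circle of radius `√(a b / 2)` which touches the ellipse at `p` from inside. In particular a
shortest curve exists for every `p` if and only if `a³ ≤ 2 b³`, and for some `p` if and only if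
`a < 2 b`. -/
theorem result (a b : ℝ) (hb : 0 < b) (hab : b ≤ a) :
    (∀ p ∈ bdE a b,
      (∃ γ : ℝ → EuclideanSpace ℝ (Fin 2), Adm a b p γ) ∧
      ((∃ γ : ℝ → EuclideanSpace ℝ (Fin 2), Shortest a b p γ) ↔
        (2 * b * (a ^ 2 - b ^ 2) * (p 0) ^ 2 < a ^ 4 * (2 * b - a) ∨ (a ^ 3 = 2 * b ^ 3 ∧ p 1 = 0))) ∧
      ∀ γ : ℝ → EuclideanSpace ℝ (Fin 2), Shortest a b p γ →
        γ '' Icc 0 1 = sphere
          (p - (Real.sqrt (a * b / 2) / Real.sqrt ((p 0 / a ^ 2) ^ 2 + (p 1 / b ^ 2) ^ 2)) •
            (!₂[p 0 / a ^ 2, p 1 / b ^ 2] : EuclideanSpace ℝ (Fin 2)))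
          (Real.sqrt (a * b / 2))) ∧
    ((∀ p ∈ bdE a b, ∃ γ : ℝ → EuclideanSpace ℝ (Fin 2), Shortest a b p γ) ↔ a ^ 3 ≤ 2 * b ^ 3) ∧
    ((∃ p ∈ bdE a b, ∃ γ : ℝ → EuclideanSpace ℝ (Fin 2), Shortest a b p γ) ↔ a < 2 * b) :=
  main a b hb hab

end Pool.Agent.Results.MP_7791e4_an.ShortestClosedCurves
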